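import Pool.Agent.H67.Final1
import Pool.Agent.H67.NP.FinHigh
import Pool.Agent.H67.NP.FinLow

/-!
# Unions of two isometrically `ℓ_p`-embeddable metric spaces

For every `p` with `1 ≤ p < ∞`, `p ≠ 2`, the answer to the question is negative, already for finite
metric spaces: there is no constant `C` such that every metric space that is the union of two
subsets which embed isometrically into `ℓ_p` embeds into `ℓ_p` with distortion at most `C`.
-/

set_option autoImplicit false

open scoped ENNReal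

namespace Pool.Agent.Results.MP_b531f7_gt.UnionLp

theorem result :
    ∀ (p : ℝ≥0∞) [Fact (1 ≤ p)], p ≠ ⊤ → p ≠ 2 →
    ∀ C : ℝ, ∃ (X : Type) (_ : MetricSpace X) (A B : Set X),
      Finite X ∧ A ∪ B = Set.univ ∧
      (∃ f : A → lp (fun _ : ℕ => ℝ) p, Isometry f) ∧
      (∃ g : B → lp (fun _ : ℕ => ℝ) p, Isometry g) ∧
      ¬ ∃ (h : X → lp (fun _ : ℕ => ℝ) p) (s : ℝ), 0 < s ∧
        ∀ x y : X, s * dist x y ≤ dist (h x) (h y) ∧
          dist (h x) (h y) ≤ s * C * dist x y := by
  intro p hp1 hp hp2 C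
  have hbad : Pool.Agent.H67.Bad p C := by
    rcases eq_or_lt_of_le (Fact.out : (1 : ℝ≥0∞) ≤ p) with h1 | h1
    · subst h1
      exact Pool.Agent.H67.bad_one C
    · rcases lt_or_gt_of_ne hp2 with h2 | h2
      · exact Pool.Agent.H67.NP.bad_lt_two p h1 h2 C
      · exact Pool.Agent.H67.NP.bad_gt_two p h2 hp C
  obtain ⟨X, inst, hfin, A, B, h⟩ := hbad
  exact ⟨X, inst, A, B, hfin, h⟩

end Pool.Agent.Results.MP_b531f7_gt.UnionLp
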